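import Pool.Agent.W2helper58.GF.Low
import Pool.Agent.W2helper58.GF.Up
import Pool.Agent.W2helper3.GF.Cover
import Pool.Agent.W2helper12.GF.Stage
import Pool.Agent.W2helper12.GF.Votes
import Pool.Agent.W2helper56.GF.Loc
import Pool.Agent.W2helper56.GF.Zpp
import Pool.Agent.W2helper66.GF.Good
import Pool.Agent.W2helper85.GF.Asym
import Pool.Agent.W2helper86.GF.Count
import Pool.Agent.W2helper86.GF.Gen
import Pool.Agent.W2helper86.GF.Limsup
import Pool.Agent.W2helper92.GF.Zb

/-!
# MP_ca1109_lc: how many oracles have no generator with logarithmic seeds?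

The definitions of the statement are in `Pool.Agent.W2helper58.GF.Defs` (`LogGenerator`,
`Circuit`, `InBPP`, `Cond`), `Pool.Agent.H620R2.Gauge.Defs` (`Oracle`, `IsFP`, `IsP`, `Extends`,
`Null`) and `Pool.Agent.H620R2.GaugeX.Defs` (`IsZPP`).

For `f = 0`, `Null f` means Lebesgue measure `0`; for `f N = (1 - s) N` it is the nullity of the
`s`-dimensional Hausdorff measure. The larger `f` is, the smaller are the null sets.

The proof. Upper bound: strings of length about `m` of the oracle, which circuits of size `m`
cannot ask, are used as the table of a generator with seed length `K log m`; it fails with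
probability `exp (-m^K)`, and the failure is seen in the first `2^(2m)` bits of the oracle. In
the same way samples of a machine for a language in `BPP` are taken from the oracle. Lower bound:
in a block of `m^K` strings of length about `m` the same bit is planted everywhere, except where a
given polynomial-time machine looks; blocks without plants are recognised with certainty, because
their cells of `3 n` bits are not constant. Blocks of this kind defeat both the machines that
decide a language in `ZPP` and the generators.
-/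

set_option autoImplicit false

namespace Pool.Agent.Results.MP_ca1109_lc.GaugeOfFailure

open Pool.Agent.NPC Pool.Agent.H620R2.Gauge Pool.Agent.W2helper58.GF

/-- (1) For every gauge `f` and every set `O` of oracles which contains the oracles without a
logarithmic-seed generator relative to which `P ≠ ZPP`, and which consists of oracles without such
a generator and of oracles relative to which `P ≠ BPP`: `O` is null for `f` if and only if for some
`C` and all large `N` there is `N' ≥ N` with `f N' ≤ (log₂ N)^C`.

(2) In particular this holds for the set of the oracles without a logarithmic-seed generator.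

(3) It holds for the set of the oracles with `P ≠ BPP`. -/
theorem result :
    (∀ (f : ℕ → ℝ) (O : Set Oracle),
      (∀ A : Oracle, ¬ LogGenerator A → (∃ L, IsZPP A L ∧ ¬ IsP A L) → A ∈ O) →
      (∀ A ∈ O, ¬ LogGenerator A ∨ ∃ L, InBPP A L ∧ ¬ IsP A L) →
      (Null f O ↔
        ∃ C : ℕ, ∀ᶠ N : ℕ in Filter.atTop, ∃ N' ≥ N, f N' ≤ (Real.logb 2 N) ^ C)) ∧
    (∀ f : ℕ → ℝ, Null f {A : Oracle | ¬ LogGenerator A} ↔
      ∃ C : ℕ, ∀ᶠ N : ℕ in Filter.atTop, ∃ N' ≥ N, f N' ≤ (Real.logb 2 N) ^ C) ∧
    (∀ f : ℕ → ℝ, Null f {A : Oracle | ∃ L, InBPP A L ∧ ¬ IsP A L} ↔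
      ∃ C : ℕ, ∀ᶠ N : ℕ in Filter.atTop, ∃ N' ≥ N, f N' ≤ (Real.logb 2 N) ^ C) := by
  have key : ∀ (f : ℕ → ℝ) (O : Set Oracle),
      (∀ A : Oracle, ¬ LogGenerator A → (∃ L, IsZPP A L ∧ ¬ IsP A L) → A ∈ O) →
      (∀ A ∈ O, ¬ LogGenerator A ∨ ∃ L, InBPP A L ∧ ¬ IsP A L) → (Null f O ↔ Pool.Agent.W2helper58.GF.Cond f) := by
    intro f O h1 h2
    constructor
    · intro h
      by_contra hf
      exact lower Pool.Agent.W2helper56.GF.p_local Pool.Agent.W2helper12.GF.p_stage
        Pool.Agent.W2helper12.GF.p_look Pool.Agent.W2helper56.GF.p_zpp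
        Pool.Agent.W2helper66.GF.p_good hf O h1 h
    · intro hf
      exact upper Pool.Agent.W2helper3.GF.p_cover Pool.Agent.W2helper58.GF.p_limsup
        Pool.Agent.W2helper86.GF.p_count Pool.Agent.W2helper58.GF.p_gen
        Pool.Agent.W2helper85.GF.p_asymG Pool.Agent.W2helper12.GF.p_votes
        Pool.Agent.W2helper85.GF.p_asymB hf O h2
  refine ⟨key, fun f => key f _ (fun A h _ => h) (fun A h => Or.inl h),
    fun f => key f _ (fun A _ h => ?_) (fun A h => Or.inr h)⟩
  obtain ⟨L, h1, h2⟩ := h
  exact ⟨L, Pool.Agent.W2helper92.GF.p_zb A L h1, h2⟩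

end Pool.Agent.Results.MP_ca1109_lc.GaugeOfFailure
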