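import Pool.Agent.W2helper86.LG.Main

/-!
# An unconditional generator against all circuits of size `m`, with linear stretch

The definition of a logarithmic-seed generator against circuits asks for a polynomial-time
computable generator `G_m : {0,1}^{d(m)} → {0,1}^m` which fools every circuit with at most `m` AND
and OR gates with error `1/8`, where `d(m) ≤ c log₂ m`. We construct, without any hypothesis, such a
generator with `d(m) = m - ⌊m/3000⌋` and exponentially small error. The output starts with the seed,
followed by `⌊m/3000⌋` parities of seed bits. Two ingredients:

* a function computed by a circuit with at most `n` AND and OR gates (NOT gates are free) has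
  correlation at most `A ^ n * ((1 + A) / (2 A³)) ^ (w - 2)` with the parity of any `w` inputs, for
  all `1 ≤ A` with `A² ≤ 1 + A` (gate elimination; non-trivial for `w > (0.4 + ε) n`);
* a binary linear code of length `m` and dimension `⌊m/3000⌋` with minimum distance above
  `0.408 m`, computable in polynomial time: the residues of a polynomial over `F₂` modulo the
  irreducible polynomials of degree `⌊log₂ m⌋`, concatenated with an inner code found by
  exhaustive search.
-/

set_option autoImplicit false

namespace Pool.Agent.Results.MP_ca1109_lc.LinearStretch

open Pool.Agent.W2helper86.LG Pool.Agent.H38.NP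

theorem result :
    ∃ G : (m : ℕ) → (Fin (m - m / 3000) → Bool) → (Fin m → Bool),
      -- the seed length is computable in polynomial time from `1^m`
      (∃ f : List Bool → List Bool, PolyTime f ∧
        ∀ m, f (List.replicate m true) = List.replicate (m - m / 3000) true) ∧
      -- the generator is computable in polynomial time from `1^m` and the seed
      (∃ g : List Bool → List Bool, PolyTime g ∧
        ∀ (m : ℕ) (s : Fin (m - m / 3000) → Bool),
          g (pair (List.replicate m true) (List.ofFn s)) = List.ofFn (G m s)) ∧
      -- the output starts with the seed
      (∀ (m : ℕ) (s : Fin (m - m / 3000) → Bool) (i : Fin (m - m / 3000)),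
        G m s (Fin.castLE (Nat.sub_le _ _) i) = s i) ∧
      -- the generator fools every circuit with at most `m` AND and OR gates
      ∀ m, 2 ^ 25 ≤ m → ∀ C : Circuit m, C.size ≤ m →
        |prob (fun s => C.eval (G m s)) - prob C.eval| ≤ (1 / 2) ^ (m / 1000) := by
  refine ⟨G, polyTime_seed, ?_, ?_, fun m hm C hC => fools hm C hC⟩
  · obtain ⟨g, hg, hgen⟩ := polyTime_gen
    exact ⟨g, hg, fun m s => by rw [hgen, ofFn_G]⟩
  · intro m s i
    have h := G_left s i.isLt
    rw [ext_fin] at h
    rw [← h]
    exact (ext_fin (G m s) (Fin.castLE (Nat.sub_le _ _) i)).symm

end Pool.Agent.Results.MP_ca1109_lc.LinearStretch
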