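import Pool.Agent.W2helper22.MG.HitFin

/-!
# It is enough to fool monotone circuits, and to hit circuits with one NOT gate

`Generator α P` (file `W2helper22/MG/Fin.lean`) says that there is a generator `G_m` as in the problem,
with seed length at most `c log₂ m`, whose advantage is at most `α m` for all circuits with at most `m` AND
and OR gates which have the property `P`. NOT gates are not counted in the size. `NoNot`: the circuit has
no NOT gates (it is monotone).

1. NOT gates do not matter: a generator against monotone circuits with advantage `α` gives a generator
   against all circuits with advantage `2 α + 3 / (m + 1)`.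
2. Hence a generator against monotone circuits with an advantage below `1 / 16` answers Q1 positively, and Q1
   gives one with advantage `1 / 8`.
3. There are generators with arbitrarily small constant advantage against monotone circuits if and only
   if there are such generators against all circuits.
4. The heart, for arbitrary maps `G : S → {0,1}^M` (not necessarily computable): if `G` has advantage at
   most `α` for all monotone circuits of size `M`, then its blocks of length `m`, `block i` for a random seed
   and a random `i < B`, have advantage at most `2 α + (m + 1) / (δ² B) + 2 (m + 1) δ` for all circuits of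
   size `m`.
5. Hitting set generators (`Hitting ρ P`, file `W2helper22/MG/HitDefs.lean`: the same with the requirement that
   each circuit with at most `m` AND and OR gates and the property `P` which accepts at least the fraction
   `ρ m` of the inputs accepts an output of the generator): a generator which hits the circuits with at
   most one NOT gate which accept at least the fraction `1 - ε` exists if and only if there is one which hits
   all circuits which accept at least the fraction `1 / (m + 1)`.
6. Without NOT gates hitting is trivial (the string of ones).
-/

set_option autoImplicit false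

namespace Pool.Agent.Results.MP_ca1109_lc.MonotoneTests

open Filter Pool.Agent.W2helper86.LG Pool.Agent.W2helper22.MG

theorem result :
    -- 1. NOT gates do not matter
    (∀ α : ℕ → ℝ, (∀ m, 0 ≤ α m) → Antitone α → Generator α (fun _ C => NoNot C) →
      Generator (fun m => 2 * α m + 3 / (m + 1)) (fun _ _ => True)) ∧
    -- 2. Q1
    (∀ a : ℝ, 0 ≤ a → a < 1 / 16 → Generator (fun _ => a) (fun _ C => NoNot C) →
      Generator (fun _ => 1 / 8) (fun _ _ => True)) ∧
    (Generator (fun _ => 1 / 8) (fun _ _ => True) →
      Generator (fun _ => 1 / 8) (fun _ C => NoNot C)) ∧
    -- 3. small constant advantage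
    ((∀ a : ℝ, 0 < a → Generator (fun _ => a) (fun _ C => NoNot C)) ↔
      ∀ a : ℝ, 0 < a → Generator (fun _ => a) (fun _ _ => True)) ∧
    -- 4. the heart
    (∀ (S : Type) [Fintype S] [Nonempty S] (m B M : ℕ) (hBM : B * m ≤ M) (G : S → Fin M → Bool)
      (α δ : ℝ), 0 ≤ α → 0 < δ → 0 < B →
      2 * (m + 1) * (B * (2 * m + 20 * (m + 2) ^ 3) + (2 * (B + 2) + 2) * (B + 1) + 2) + 2 ≤ M →
      (∀ C : Circuit M, NoNot C → C.size ≤ M → |prob (fun s => C.eval (G s)) - prob C.eval| ≤ α) →
      ∀ C : Circuit m, C.size ≤ m →
        |prob (fun p : S × Fin B => C.eval (fun j => G p.1 (blk m B M hBM p.2 j))) - prob C.eval| ≤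
          2 * α + (2 * (m + 1) : ℕ) / (2 * δ ^ 2 * B) + (2 * (m + 1) : ℕ) * δ) ∧
    -- 5. hitting sets: one NOT gate is as good as all
    (∀ ε : ℝ, 0 < ε → ε < 1 → (Hitting (fun _ => 1 - ε) (fun _ C => OneNot C) ↔
      Hitting (fun m => 1 / (m + 1)) (fun _ _ => True))) ∧
    -- 6. hitting sets: no NOT gate is trivial
    Hitting (fun m => 1 / (m + 1)) (fun _ C => NoNot C) :=
  ⟨final_main, final_q1, final_conv, final_iff,
    fun S _ _ m B M hBM G α δ hα hδ hB hs hG C hC => final_core S m B M hBM G α δ hα hδ hB hs hG C hC,
    final_hit, hit_trivial⟩

end Pool.Agent.Results.MP_ca1109_lc.MonotoneTests
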