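import Pool.Agent.W2helper58.SS.Fin
import Pool.Agent.W2helper92.SS.Count2
import Pool.Agent.W2helper71.SS.F

/-!
# MP_ca1109_lc: the best constant in the seed length of relativized generators

The definitions of the statement are `SeedGen` in `Pool.Agent.W2helper58.SS.Stm`, `Circuit`, `pr`,
`un` in `Pool.Agent.W2helper58.GF.Defs` and `Oracle`, `IsFP`, `Null` in
`Pool.Agent.H620R2.Gauge.Defs`.

For `f = 0`, `Null f` means Lebesgue measure `0`; for `f N = (1 - s) N` it is the nullity of the
`s`-dimensional Hausdorff measure. The larger `f` is, the smaller are the null sets.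

The proof. Null side: strings of length about `m` of the oracle are the table of a generator with
seeds of length `(p/q) log₂ m`; there are only `2^(O(m log m))` circuits of size `m`, so it fails
with probability `exp (-m^(p/q) / 300)`, and the failure is seen in the first `2^(2m)` bits of the
oracle. Other side: against a generator with seeds of length at most `r log₂ m` the table of the
prefixes of length `r log₂ m + 4` of its outputs is written behind a key of length
`m - 1 - r log₂ m` which the generator does not ask for; these are only `O(m^r)` bits, and the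
choice of the key costs `O(log m)` bits.
-/

set_option autoImplicit false

namespace Pool.Agent.Results.MP_ca1109_lc.SeedSpectrum

open Pool.Agent.NPC Pool.Agent.H620R2.Gauge Pool.Agent.W2helper58.GF Pool.Agent.W2helper58.SS

/-- (1) For every real `c > 1` and every gauge `f`, the set of the oracles relative to which no
generator has seeds of length at most `c' log₂ m` for a `c' < c` is null for `f` if and only if for
some `C < c` and all large `N` there is `N' ≥ N` with `f N' ≤ (log₂ N)^C`.

(2) For every real `c ≥ 1` and every gauge `f`, the set of the oracles relative to which for some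
`c' > c` no generator has seeds of length at most `c' log₂ m` is null for `f` if and only if for
every `C > c` and all large `N` there is `N' ≥ N` with `f N' ≤ (log₂ N)^C`.

(3) For every real `c > 1` the set of the oracles whose best constant is exactly `c` is not null
for the gauge `(log₂ N)^c`. -/
theorem result :
    (∀ (f : ℕ → ℝ) (c : ℝ), 1 < c →
      (Null f {A : Oracle | ∀ c' < c, ¬ SeedGen c' A} ↔
        ∃ C < c, ∀ᶠ N : ℕ in Filter.atTop, ∃ N' ≥ N, f N' ≤ (Real.logb 2 N) ^ C)) ∧
    (∀ (f : ℕ → ℝ) (c : ℝ), 1 ≤ c →
      (Null f {A : Oracle | ∃ c' > c, ¬ SeedGen c' A} ↔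
        ∀ C > c, ∀ᶠ N : ℕ in Filter.atTop, ∃ N' ≥ N, f N' ≤ (Real.logb 2 N) ^ C)) ∧
    (∀ c : ℝ, 1 < c → ¬ Null (fun N : ℕ => (Real.logb 2 N) ^ c)
      {A : Oracle | (∀ c' < c, ¬ SeedGen c' A) ∧ ∀ c' > c, SeedGen c' A}) :=
  ⟨fun _ _ hc => key1 Pool.Agent.W2helper92.SS.p_count2 Pool.Agent.W2helper71.SS.p_look2
      Pool.Agent.W2helper71.SS.p_mass2 hc,
    fun _ _ hc => key2 Pool.Agent.W2helper92.SS.p_count2 Pool.Agent.W2helper71.SS.p_look2
      Pool.Agent.W2helper71.SS.p_mass2 hc,
    fun _ hc => key3 Pool.Agent.W2helper92.SS.p_count2 Pool.Agent.W2helper71.SS.p_look2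
      Pool.Agent.W2helper71.SS.p_mass2 hc⟩

end Pool.Agent.Results.MP_ca1109_lc.SeedSpectrum
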